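import Pool.Agent.Helper41_AHH.Cal
import Pool.Agent.AHH.Z

/-!
# The scales in powers of `s = sg (n + 1)`
-/

set_option autoImplicit false

open scoped BigOperators NNReal Matrix

noncomputable section

namespace Pool.Agent.AHH.H41

open Pool.Agent.AND.Num

/-- what is used: the super-stage `n ≤ N`, `s = sg (n + 1)` -/
structure Sz {d : ℕ} (V : AND2B.Env d) (n : ℕ) (s : ℝ) : Prop where
  hw : 0 < V.w
  hth : 0 < V.th ∧ V.th < 1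
  hw1 : (V.w : ℝ) ≤ 1
  sc : V.Sc
  hn : n ≤ V.N
  hs : s = V.sg (n + 1)

section sz

variable {d n : ℕ} {V : AND2B.Env d} {s a es' c C : ℝ}

theorem Sz.of_pre (h : V.Pre a) (hw1 : (V.w : ℝ) ≤ 1) (hn : n ≤ V.N) : Sz V n (V.sg (n + 1)) :=
  ⟨h.w, ⟨lt_of_lt_of_le (by norm_num) h.th.1, h.th.2⟩, hw1, h.sc, hn, rfl⟩

theorem Sz.of_good (h : V.Good a es' c C) (hw1 : (V.w : ℝ) ≤ 1) (hn : n ≤ V.N) :
    Sz V n (V.sg (n + 1)) := Sz.of_pre h.toPre hw1 hn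

theorem Sz.pos (h : Sz V n s) : 0 < s := by
  rw [h.hs]
  exact_mod_cast cl_pos V h.hw h.hth.1 _

theorem Sz.cpos (h : Sz V n s) (k : ℕ) : (0 : ℝ) < V.cl k := by
  exact_mod_cast cl_pos V h.hw h.hth.1 k

theorem Sz.spos (h : Sz V n s) (m : ℕ) : 0 < V.sg m := h.cpos _

theorem Sz.le_w (h : Sz V n s) : s ≤ V.w := by
  rw [h.hs]
  exact_mod_cast cl_le V h.hth.2.le _

theorem Sz.le1 (h : Sz V n s) : s ≤ 1 := h.le_w.trans h.hw1

theorem Sz.lt1 (h : Sz V n s) : s < 1 := by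
  have hk : 0 < V.kk (n + 1) := lt_of_le_of_lt (Nat.zero_le _) (h.sc.km n)
  have h1 : s < V.w := by
    rw [h.hs]
    show ((AND2B.cl V.w V.th (V.kk (n + 1)) : ℝ≥0) : ℝ) < V.w
    unfold AND2B.cl
    push_cast
    have h2 : (V.th : ℝ) ^ V.kk (n + 1) < 1 :=
      pow_lt_one₀ (NNReal.coe_nonneg _) (by exact_mod_cast h.hth.2) hk.ne'
    have h3 : (0 : ℝ) < V.w := by exact_mod_cast h.hw
    nlinarith
  exact h1.trans_le h.hw1

theorem Sz.kmono (h : Sz V n s) {i j : ℕ} (hij : i ≤ j) : V.kk i ≤ V.kk j :=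
  (strictMono_nat_of_lt_succ h.sc.km).monotone hij

theorem Sz.santi (h : Sz V n s) {i j : ℕ} (hij : i ≤ j) : V.sg j ≤ V.sg i := by
  exact_mod_cast cl_anti V h.hth.2.le (h.kmono hij)

/-- the clocks of the stages of the super-stage `n` -/
theorem Sz.cl_lo (h : Sz V n s) {k : ℕ} (hk : k ≤ V.kk (n + 1)) : Lo s 1 (V.cl k) := by
  unfold Lo
  rw [Real.rpow_one, h.hs]
  exact_mod_cast cl_anti V h.hth.2.le hk

theorem Sz.w_lo (h : Sz V n s) : Lo s 1 (V.w : ℝ) := by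
  unfold Lo
  rw [Real.rpow_one]
  exact h.le_w

theorem Sz.sg_lo (h : Sz V n s) {m : ℕ} (hm : m ≤ n + 1) : Lo s 1 (V.sg m) :=
  h.cl_lo (h.kmono hm)

/-- `sg n ≤ s ^ (1 / (α + 1))` -/
theorem Sz.sg_up (h : Sz V n s) : Up s (1 / ((V.α : ℝ) + 1)) (V.sg n) := by
  refine ⟨(h.spos n).le, ?_⟩
  have h1 := h.sc.low n h.hn
  have h2 : (0 : ℝ) < (V.α : ℝ) + 1 := by positivity
  have h3 : V.sg n = ((V.sg n) ^ (V.α + 1)) ^ (1 / ((V.α : ℝ) + 1)) := by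
    rw [← Real.rpow_natCast, ← Real.rpow_mul (h.spos n).le]
    push_cast
    rw [mul_one_div_cancel h2.ne', Real.rpow_one]
  rw [h3, h.hs]
  exact Real.rpow_le_rpow (pow_nonneg (h.spos n).le _) h1 (by positivity)

/-- clocks of the super-stage `n` -/
theorem Sz.cl_up (h : Sz V n s) {k : ℕ} (hk : V.kk n ≤ k) :
    Up s (1 / ((V.α : ℝ) + 1)) (V.cl k) :=
  h.sg_up.of_le (h.cpos k).le (by exact_mod_cast cl_anti V h.hth.2.le hk)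

theorem Sz.L_lo (h : Sz V n s) : Lo s (-5) ((2 : ℝ) ^ V.l n) := by
  unfold Lo
  rw [h.hs]
  exact h.sc.llow n h.hn

theorem Sz.L_up (h : Sz V n s) : Up s (-V.C₁) ((2 : ℝ) ^ V.l n) :=
  ⟨by positivity, by rw [h.hs]; exact h.sc.lup n h.hn⟩

theorem Sz.r_lo (h : Sz V n s) : Lo s (-3) ((2 : ℝ) ^ V.r n) := by
  unfold Lo
  rw [h.hs]
  exact h.sc.rlow n h.hn

theorem Sz.r_up (h : Sz V n s) : Up s (-4) ((2 : ℝ) ^ V.r n) :=
  ⟨by positivity, by rw [h.hs]; exact h.sc.rup n h.hn⟩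

/-- `5 ≤ C₁` -/
theorem Sz.C1 (h : Sz V n s) : 5 ≤ V.C₁ := by
  by_contra hc
  push Not at hc
  have h1 := (h.L_lo).trans h.L_up.le
  have h2 : s ^ (-V.C₁) < s ^ (-5 : ℝ) :=
    Real.rpow_lt_rpow_of_exponent_gt h.pos h.lt1 (by linarith)
  linarith

theorem Sz.kn (h : Sz V n s) : Up s (-(6 / 5)) (V.Kn n : ℝ) := by
  refine ⟨Nat.cast_nonneg _, ?_⟩
  rw [h.sc.kn n h.hn, h.hs]
  exact Nat.floor_le (Real.rpow_nonneg (h.spos _).le _)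

/-- the same from below -/
theorem Sz.kn_lo (h : Sz V n s) : s ^ (-(6 / 5) : ℝ) - 1 ≤ (V.Kn n : ℝ) := by
  rw [h.sc.kn n h.hn, h.hs]
  have := Nat.lt_floor_add_one (V.sg (n + 1) ^ (-(6 / 5) : ℝ))
  linarith

theorem Sz.dn (h : Sz V n s) : Up s (-(5 / 4)) (V.Dn n : ℝ) :=
  ⟨Nat.cast_nonneg _, by rw [h.hs]; exact h.sc.dl n h.hn⟩

/-- the size of a cluster -/
theorem Sz.clu (h : Sz V n s) (h1 : 1 ≤ n) :
    Up s (-V.c₁) (3 ^ d * V.J * (6 * 2 ^ V.l (n - 1) + 1) ^ d : ℝ) :=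
  ⟨by positivity, by rw [h.hs]; exact h.sc.clu n h1 h.hn⟩

/-- `L n`, `ρ n` of the geometry -/
theorem gt_L (V : AND2B.Env d) (n : ℕ) : V.G.L n = 2 ^ V.l n := rfl

theorem gt_r (V : AND2B.Env d) (n : ℕ) : V.G.ρ n = 2 ^ V.r n := rfl

theorem Sz.card (h : Sz V n s) (h1 : 1 ≤ n) {Q : Finset V.X}
    (hQ : Q.card ≤ 3 ^ d * V.G.J * (6 * V.G.L (n - 1) + 1) ^ d) : Up s (-V.c₁) (Q.card : ℝ) := by
  refine (h.clu h1).of_le (Nat.cast_nonneg _) ?_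
  have h2 : (Q.card : ℝ) ≤ ((3 ^ d * V.G.J * (6 * V.G.L (n - 1) + 1) ^ d : ℕ) : ℝ) := by
    exact_mod_cast hQ
  refine h2.trans (le_of_eq ?_)
  rw [gt_L]
  push_cast
  rfl

theorem Sz.side (h : Sz V n s) : 2 ^ V.l n ≤ 2 ^ V.μ :=
  Nat.pow_le_pow_right (by norm_num) ((h.sc.lm h.hn).trans (by have := h.sc.lN; omega))

end sz

/-- from `Small` to the environments: `w ≤ w₀` gives the property for all `s ≤ w` -/
theorem ex_small {P : ℝ → Prop} (h : Small P) :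
    ∃ w₀ : ℝ, 0 < w₀ ∧ w₀ ≤ 1 ∧ ∀ w s : ℝ, w ≤ w₀ → 0 < s → s ≤ w → P s := by
  obtain ⟨w₀, h0, h1, h2⟩ := h.ex
  exact ⟨w₀, h0, h1, fun w s hw hs hsw => h2 s hs (hsw.trans hw)⟩

end Pool.Agent.AHH.H41
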