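import Pool.Agent.Helper41_AHH.Cal
import Pool.Agent.Helper34_KL2.Ins
import Pool.Agent.Helper34_KL2.LY

/-!
# The numeric conditions `KN1` and `KN2` hold for small `s`
-/

set_option autoImplicit false

open scoped BigOperators NNReal Matrix

noncomputable section

namespace Pool.Agent.AHH.H41

open Pool.Agent.AND.Num
open Pool.Agent.KL2

/-- the data: `s` the clock, `ρ = 2 ^ (k + 2)`, `clu`, `kn` bounds for the numbers of sites of `Q` and of
the killed sites -/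
structure Dat (d : ℕ) (c₁ Kz s : ℝ) (n : ℕ) (Dn : ℕ → ℕ) (μ k clu kn : ℕ)
    (e₀ lam J mm MM hK : ℝ) : Prop where
  he : 0 < e₀ ∧ e₀ ≤ s
  lam : 1 / 4 * s ^ (-(3 / 4) : ℝ) ≤ lam ∧ lam ≤ 1 / 2 * s ^ (-(3 / 4) : ℝ)
  hM : k + 2 ≤ μ
  rho : s ^ (-3 : ℝ) ≤ 2 ^ (k + 2)
  clu : (clu : ℝ) ≤ s ^ (-c₁)
  kn : (kn : ℝ) ≤ s ^ (-(6 / 5) : ℝ)
  zc : Zc d n (fun j => 2 * Dn j) ≤ Kz * s ^ (-(5 / 4) : ℝ)
  J : 0 ≤ J ∧ J ≤ s ^ (3 / 25 : ℝ)
  mm : 0 ≤ mm ∧ mm ≤ s ^ (1 / 30 : ℝ)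
  MM : MM ≤ s ^ (-(1 / 5) : ℝ)
  hK : 0 ≤ hK ∧ hK ≤ s ^ (1 / 10 : ℝ)

/-- the exponential tails -/
theorem small_tail (a q R : ℝ) (ha : 0 < a) :
    Small fun s => ∀ ρ : ℝ, s ^ (-3 : ℝ) ≤ ρ → q * Real.exp (-(a * s * ρ)) ≤ s ^ R := by
  have h1 := small_exp_pow q a 2 0 R ha (by norm_num)
  have h0 : Small fun s => (max q 0) * s ^ (-(0:ℝ)) * Real.exp (-(a * s ^ (-(2:ℝ)))) ≤ s ^ R :=
    small_exp_pow (max q 0) a 2 0 R ha (by norm_num)
  refine (h0.and (small_le 1 one_pos)).mono fun s hs h ρ hρ => ?_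
  obtain ⟨h, -⟩ := h
  rw [neg_zero, Real.rpow_zero, mul_one] at h
  have h2 : a * s ^ (-(2 : ℝ)) ≤ a * s * ρ := by
    have h3 : s ^ (-(2 : ℝ)) = s * s ^ (-3 : ℝ) := by
      nth_rewrite 2 [← Real.rpow_one s]
      rw [← Real.rpow_add hs]
      norm_num
    rw [h3, ← mul_assoc]
    exact mul_le_mul_of_nonneg_left hρ (by positivity)
  have h4 : Real.exp (-(a * s * ρ)) ≤ Real.exp (-(a * s ^ (-(2 : ℝ)))) :=
    Real.exp_le_exp.2 (neg_le_neg h2)
  calc q * Real.exp (-(a * s * ρ)) ≤ max q 0 * Real.exp (-(a * s * ρ)) :=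
        mul_le_mul_of_nonneg_right (le_max_left _ _) (Real.exp_pos _).le
    _ ≤ max q 0 * Real.exp (-(a * s ^ (-(2 : ℝ)))) :=
        mul_le_mul_of_nonneg_left h4 (le_max_right _ _)
    _ ≤ _ := h

/-- KN1 -/
theorem kn1 (d : ℕ) (c Cg c₁ Kz : ℝ) (hd : 3 ≤ d) (hc : 0 < c) (hCg : 0 ≤ Cg) :
    Small fun s => ∀ (n : ℕ) (Dn : ℕ → ℕ) (μ k clu kn : ℕ) (e₀ lam J mm MM hK : ℝ),
      Dat d c₁ Kz s n Dn μ k clu kn e₀ lam J mm MM hK →
      KN1 (s * c) c lam (s ^ (1 / 10 : ℝ)) (s ^ (1 / 200 : ℝ)) (s ^ (1 / 100 : ℝ))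
        (s ^ (5 * (d : ℝ))) Cg
        (J + 4 / (s * c) * Real.exp (-(s * c / (8 * d) / 4 * ((2 ^ (k + 2) : ℕ) : ℝ))))
        (mm + 8 / (s * c) * Real.exp (-(s * c / (8 * d) / 4 * ((2 ^ (k + 2) : ℕ) : ℝ))))
        (8 / (s * c)) (s * c / (8 * d) / 4) (s ^ (10 : ℝ)) (2 ^ (k + 2)) := by
  have hd0 : (0 : ℝ) < d := by
    have : 0 < d := by omega
    exact_mod_cast this
  -- constants
  have A1 := small_tail (c / (8 * d) / 4 / 2) (8 / c) (1 + 4 * (10 + 5 * (d : ℝ))) (by positivity)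
  have A2 := small_tail (c / (8 * d) / 4) (8 / c) 2 (by positivity)
  have A3 := small_pow (32 * (d : ℝ) / c * 8) 2 0 (by norm_num)
  -- `22 s^10 ≤ s^(1/200)`
  have A4 := small_pow 22 10 (1 / 200) (by norm_num)
  have A5 := small_pow' (2 * (Cg + 2)) c 10 (1 / 100) hc (by norm_num)
  have A6 := small_pow' 1 (c / 4) 80 (1 / 4) (by positivity) (by norm_num)
  have A7 := small_pow 2 (3 / 25) (1 / 10) (by norm_num)
  have A8 := small_pow' (8 / c) (1 / (4 * 22 ^ 4)) (6 / 25 + 1 / 30 - 1) (1 / 50 - 3 / 4)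
    (by positivity) (by norm_num)
  have A9 := small_pow' 2 ((c / (2 * (Cg + 2))) ^ 2) (1 / 30) (1 / 50) (by positivity) (by norm_num)
  have A10 := small_rpow_le (2 * (Cg + 2) / c) (1 / 100) (by positivity) (by norm_num)
  have H := (((((((((A1.and A2).and A3).and A4).and A5).and A6).and A7).and A8).and A9).and
    A10).and (small_le 1 one_pos)
  refine H.mono fun s hs h => ?_
  obtain ⟨⟨⟨⟨⟨⟨⟨⟨⟨⟨A1, A2⟩, A3⟩, A4⟩, A5⟩, A6⟩, A7⟩, A8⟩, A9⟩, A10⟩, hs1⟩ := h
  intro n Dn μ k clu kn e₀ lam J mm MM hK D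
  have hk : 0 < s * c := mul_pos hs hc
  have hρ : s ^ (-3 : ℝ) ≤ ((2 ^ (k + 2) : ℕ) : ℝ) := by
    push_cast
    exact D.rho
  set ρ : ℝ := ((2 ^ (k + 2) : ℕ) : ℝ) with hρd
  have hρ0 : 0 < ρ := lt_of_lt_of_le (Real.rpow_pos_of_pos hs _) hρ
  have rp : ∀ p : ℝ, 0 < s ^ p := fun p => Real.rpow_pos_of_pos hs p
  have anti : ∀ {p q : ℝ}, q ≤ p → s ^ p ≤ s ^ q := fun h => rpow_anti hs hs1 h
  have hlam0 : 0 < lam := lt_of_lt_of_le (by have := rp (-(3 / 4)); positivity) D.lam.1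
  -- the tails
  have hX : 8 / (s * c) * Real.exp (-(s * c / (8 * d) / 4 * ρ)) ≤ s := by
    have h1 := A2 ρ hρ
    have h2 : -(s * c / (8 * d) / 4 * ρ) = -(c / (8 * d) / 4 * s * ρ) := by ring
    rw [h2]
    have h3 : 8 / (s * c) * Real.exp (-(c / (8 * d) / 4 * s * ρ)) =
        (8 / c * Real.exp (-(c / (8 * d) / 4 * s * ρ))) / s := by
      field_simp
    rw [h3, div_le_iff₀ hs]
    refine h1.trans (le_of_eq ?_)
    rw [show (2 : ℝ) = ((2 : ℕ) : ℝ) by norm_num, Real.rpow_natCast]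
    ring
  have hs25 : s ≤ s ^ (3 / 25 : ℝ) := by
    have := anti (show (3 / 25 : ℝ) ≤ 1 by norm_num)
    rwa [Real.rpow_one] at this
  have hs30 : s ≤ s ^ (1 / 30 : ℝ) := by
    have := anti (show (1 / 30 : ℝ) ≤ 1 by norm_num)
    rwa [Real.rpow_one] at this
  have hX4 : 4 / (s * c) * Real.exp (-(s * c / (8 * d) / 4 * ρ)) ≤ s := by
    refine le_trans (mul_le_mul_of_nonneg_right ?_ (Real.exp_pos _).le) hX
    gcongr
    norm_num
  have hX4' : 0 ≤ 4 / (s * c) * Real.exp (-(s * c / (8 * d) / 4 * ρ)) := by positivity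
  have hX' : 0 ≤ 8 / (s * c) * Real.exp (-(s * c / (8 * d) / 4 * ρ)) := by positivity
  have hJ1 : J + 4 / (s * c) * Real.exp (-(s * c / (8 * d) / 4 * ρ)) ≤ 2 * s ^ (3 / 25 : ℝ) := by
    have := D.J.2
    linarith
  have hm1 : mm + 8 / (s * c) * Real.exp (-(s * c / (8 * d) / 4 * ρ)) ≤ 2 * s ^ (1 / 30 : ℝ) := by
    have := D.mm.2
    linarith
  have hJ10 : 0 ≤ J + 4 / (s * c) * Real.exp (-(s * c / (8 * d) / 4 * ρ)) :=
    add_nonneg D.J.1 hX4'
  have hm10 : 0 ≤ mm + 8 / (s * c) * Real.exp (-(s * c / (8 * d) / 4 * ρ)) :=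
    add_nonneg D.mm.1 hX'
  exact {
    hk := hk
    hlam := hlam0.le
    htau := ⟨rp _, by
      have := anti (show (0 : ℝ) ≤ 5 * d by positivity)
      rwa [Real.rpow_zero] at this⟩
    hJ1 := hJ10
    hE1 := by positivity
    hCg := hCg
    hrho := by positivity
    heta := by
      refine ⟨rp _, ?_, anti (by norm_num), A4, ?_, ?_⟩
      · have := anti (show (0 : ℝ) ≤ 10 by norm_num)
        rwa [Real.rpow_zero] at this
      · calc 2 * s ^ (10 : ℝ) * (Cg + 2) = 2 * (Cg + 2) * s ^ (10 : ℝ) := by ring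
          _ ≤ c * s ^ (1 / 100 : ℝ) := A5
          _ = _ := by ring
      · have h1 : (s ^ (10 : ℝ)) ^ 8 = s ^ (80 : ℝ) := by
          rw [← Real.rpow_natCast, ← Real.rpow_mul hs.le]
          norm_num
        have h2 : s ^ (1 / 4 : ℝ) = s * s ^ (-(3 / 4) : ℝ) := by
          nth_rewrite 2 [← Real.rpow_one s]
          rw [← Real.rpow_add hs]
          norm_num
        rw [one_mul, h2] at A6
        rw [h1]
        refine A6.trans ?_
        have h3 := mul_le_mul_of_nonneg_left D.lam.1 hk.le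
        calc c / 4 * (s * s ^ (-(3 / 4) : ℝ)) = s * c * (1 / 4 * s ^ (-(3 / 4) : ℝ)) := by ring
          _ ≤ _ := h3
    far := by
      constructor
      · have h1 := A1 ρ hρ
        have h2 : -(s * c / (8 * d) / 4 / 2 * ρ) = -(c / (8 * d) / 4 / 2 * s * ρ) := by ring
        rw [h2]
        have h3 : 8 / (s * c) * Real.exp (-(c / (8 * d) / 4 / 2 * s * ρ)) =
            (8 / c * Real.exp (-(c / (8 * d) / 4 / 2 * s * ρ))) / s := by
          field_simp
        rw [h3, div_le_iff₀ hs]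
        refine h1.trans (le_of_eq ?_)
        rw [← Real.rpow_add hs, Real.rpow_add hs, Real.rpow_one, mul_comm]
        congr 1
        rw [← Real.rpow_natCast, ← Real.rpow_mul hs.le]
        congr 1
        push_cast
        ring
      · rw [Real.rpow_zero] at A3
        have h1 : s * c / (8 * d) / 4 * s ^ (-3 : ℝ) ≤ s * c / (8 * d) / 4 * ρ :=
          mul_le_mul_of_nonneg_left hρ (by positivity)
        refine le_trans ?_ h1
        have h2 : s * c / (8 * d) / 4 * s ^ (-3 : ℝ) = (c / (32 * d)) * s ^ (-2 : ℝ) := by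
          have : s ^ (-2 : ℝ) = s * s ^ (-3 : ℝ) := by
            nth_rewrite 2 [← Real.rpow_one s]
            rw [← Real.rpow_add hs]
            norm_num
          rw [this]
          field_simp
          norm_num
        rw [h2, Real.rpow_neg hs.le]
        have h3 : 0 < s ^ (2 : ℝ) := rp 2
        rw [div_mul_eq_mul_div, ← div_eq_mul_inv, div_div, le_div_iff₀ (by positivity)]
        have h4 : 32 * (d : ℝ) / c * 8 * s ^ (2 : ℝ) * c ≤ 1 * c :=
          mul_le_mul_of_nonneg_right A3 hc.le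
        have h5 : 32 * (d : ℝ) / c * 8 * s ^ (2 : ℝ) * c = 8 * (s ^ (2 : ℝ) * (32 * d)) := by
          field_simp
        linarith
    e := hJ1.trans A7
    l := by
      refine ⟨s ^ (1 / 200 : ℝ) / 22, by have := rp (1 / 200); positivity, ?_, ?_, ?_⟩
      · have := anti (show (0 : ℝ) ≤ 1 / 200 by norm_num)
        rw [Real.rpow_zero] at this
        linarith
      · have := rp (1 / 200)
        linarith
      · have h1 : (J + 4 / (s * c) * Real.exp (-(s * c / (8 * d) / 4 * ρ))) ^ 2 ≤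
            4 * s ^ (6 / 25 : ℝ) := by
          refine (pow_le_pow_left₀ hJ10 hJ1 2).trans (le_of_eq ?_)
          rw [mul_pow, ← Real.rpow_natCast (s ^ (3 / 25 : ℝ)), ← Real.rpow_mul hs.le]
          norm_num
        have h2 : (mm + 8 / (s * c) * Real.exp (-(s * c / (8 * d) / 4 * ρ))) / (s * c) ≤
            2 / c * s ^ (1 / 30 - 1 : ℝ) := by
          rw [div_le_iff₀ hk]
          refine hm1.trans (le_of_eq ?_)
          have : s ^ (1 / 30 : ℝ) = s ^ (1 / 30 - 1 : ℝ) * s := by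
            nth_rewrite 3 [← Real.rpow_one s]
            rw [← Real.rpow_add hs]
            norm_num
          rw [this]
          field_simp
        have h3 : 0 ≤ (mm + 8 / (s * c) * Real.exp (-(s * c / (8 * d) / 4 * ρ))) / (s * c) :=
          div_nonneg hm10 hk.le
        refine (mul_le_mul h1 h2 h3 (by have := rp (6 / 25); positivity)).trans ?_
        have h4 : 4 * s ^ (6 / 25 : ℝ) * (2 / c * s ^ (1 / 30 - 1 : ℝ)) =
            8 / c * s ^ (6 / 25 + 1 / 30 - 1 : ℝ) := by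
          have : s ^ (6 / 25 + 1 / 30 - 1 : ℝ) = s ^ (6 / 25 : ℝ) * s ^ (1 / 30 - 1 : ℝ) := by
            rw [← Real.rpow_add hs]
            congr 1
            ring
          rw [this]
          ring
        rw [h4]
        refine A8.trans ?_
        have h5 : (s ^ (1 / 200 : ℝ) / 22) ^ 4 = s ^ (1 / 50 : ℝ) / 22 ^ 4 := by
          rw [div_pow, ← Real.rpow_natCast (s ^ (1 / 200 : ℝ)), ← Real.rpow_mul hs.le]
          norm_num
        have h6 : s ^ (1 / 50 - 3 / 4 : ℝ) = s ^ (1 / 50 : ℝ) * s ^ (-(3 / 4) : ℝ) := by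
          rw [← Real.rpow_add hs]
          congr 1
        rw [h5, h6]
        have h7 := mul_le_mul_of_nonneg_left D.lam.1
          (show 0 ≤ s ^ (1 / 50 : ℝ) / 22 ^ 4 by have := rp (1 / 50); positivity)
        refine le_trans (le_of_eq ?_) h7
        ring
    y := by
      have hC2 : 0 < Cg + 2 := by linarith
      refine ⟨s ^ (1 / 100 : ℝ) * (c / (2 * (Cg + 2))), by
        have := rp (1 / 100); positivity, ?_, ?_, ?_⟩
      · calc s ^ (1 / 100 : ℝ) * (c / (2 * (Cg + 2))) ≤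
            2 * (Cg + 2) / c * (c / (2 * (Cg + 2))) :=
              mul_le_mul_of_nonneg_right A10 (by positivity)
          _ = 1 := by field_simp
      · apply le_of_eq
        field_simp
      · refine hm1.trans (A9.trans (le_of_eq ?_))
        rw [mul_pow, ← Real.rpow_natCast (s ^ (1 / 100 : ℝ)), ← Real.rpow_mul hs.le]
        norm_num
        ring }

end Pool.Agent.AHH.H41
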