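import Pool.Agent.Helper41_AHH.KN1

/-!
# The numeric conditions `KN2` hold for small `s`
-/

set_option autoImplicit false

open scoped BigOperators NNReal Matrix

noncomputable section

namespace Pool.Agent.AHH.H41

open Pool.Agent.AND.Num
open Pool.Agent.KL2

/-- `A s^(-q) exp (K₁ s^(-1/4)) exp (-K₂ s^(-p)) ≤ exp (-s^(-1/2))` -/
theorem small_ex2 (A K₁ K₂ p q : ℝ) (hK₂ : 0 < K₂) (hp : 1 / 2 < p) :
    Small fun s => A * s ^ (-q) * Real.exp (K₁ * s ^ (-(1 / 4) : ℝ)) *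
      Real.exp (-(K₂ * s ^ (-p))) ≤ Real.exp (-(s ^ (-(1 / 2) : ℝ))) := by
  have h1 := small_exp (max A 0) (K₂ / 2) p q (1 / 2) (by positivity) (by linarith) hp
  have h2 := small_pow' K₁ (K₂ / 2) (-(1 / 4)) (-p) (by positivity) (by linarith)
  refine (h1.and h2).mono fun s hs h => ?_
  obtain ⟨h1, h2⟩ := h
  have hq : 0 < s ^ (-q) := Real.rpow_pos_of_pos hs _
  have h3 : Real.exp (K₁ * s ^ (-(1 / 4) : ℝ)) * Real.exp (-(K₂ * s ^ (-p))) ≤
      Real.exp (-(K₂ / 2 * s ^ (-p))) := by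
    rw [← Real.exp_add]
    refine Real.exp_le_exp.2 ?_
    linarith
  calc A * s ^ (-q) * Real.exp (K₁ * s ^ (-(1 / 4) : ℝ)) * Real.exp (-(K₂ * s ^ (-p)))
      ≤ max A 0 * s ^ (-q) * (Real.exp (K₁ * s ^ (-(1 / 4) : ℝ)) *
          Real.exp (-(K₂ * s ^ (-p)))) := by
        rw [← mul_assoc]
        gcongr
        exact le_max_left _ _
    _ ≤ max A 0 * s ^ (-q) * Real.exp (-(K₂ / 2 * s ^ (-p))) :=
        mul_le_mul_of_nonneg_left h3 (by positivity)
    _ ≤ _ := h1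

/-- KN2 -/
theorem kn2 (d : ℕ) (c C₀ Cg c₁ Kz : ℝ) (hd : 3 ≤ d) (hc : 0 < c) (hC₀ : 0 ≤ C₀) (hCg : 0 ≤ Cg)
    (hc₁ : c₁ ≤ 1 / 1000) :
    Small fun s => ∀ (n : ℕ) (Dn : ℕ → ℕ) (μ k clu kn : ℕ) (e₀ lam J mm MM hK : ℝ),
      Dat d c₁ Kz s n Dn μ k clu kn e₀ lam J mm MM hK →
      ∀ nQ nK : ℝ, 0 ≤ nQ → nQ ≤ s ^ (-(1 / 1000) : ℝ) → 0 ≤ nK → nK ≤ s ^ (-(6 / 5) : ℝ) →
      KN2 d n Dn μ k ⌊s ^ (-(8 / 5) : ℝ)⌋₊ ⌊s ^ (-(8 / 5) : ℝ)⌋₊ (clu + kn)
        s c C₀ e₀ lam Cg (s * c) (s * c / (8 * d)) (s * (C₀ + 1)) nQ nK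
        (16 * Real.exp (2 * (s * c / (8 * d)) * Zc d n fun j => 2 * Dn j))
        (Real.exp (-(s ^ (-(1 / 2) : ℝ)))) mm MM hK
        (s ^ (1033 / 1000 : ℝ)) (s ^ (33 / 1000 : ℝ)) (s ^ (-(1 / 5) : ℝ))
        (s ^ (1024 / 1000 : ℝ)) (s ^ (24 / 1000 : ℝ)) (s ^ (-(201 / 1000) : ℝ)) := by
  have hd0 : (0 : ℝ) < d := by
    have : 0 < d := by omega
    exact_mod_cast this
  have B1 := small_ex2 32 (c * Kz / (4 * d)) (c / (64 * d)) 2 (6 / 5) (by positivity) (by norm_num)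
  have B2 := small_ex2 96 (c * Kz / (4 * d)) (c / (192 * d)) (3 / 5) 0 (by positivity)
    (by norm_num)
  have B3 := small_ex2 32 (c * Kz / (4 * d)) (c / (192 * d)) (3 / 5) (6 / 5) (by positivity)
    (by norm_num)
  have B4 := small_exp_pow 1 1 (1 / 2) 0 2 one_pos (by norm_num)
  -- geometry
  have B5 := small_pow' 4 (1 / 4) (-(14 / 5)) (-3) (by norm_num) (by norm_num)
  have B6 := small_rpow_le (1 / 2) (8 / 5) (by norm_num) (by norm_num)
  have B7 := small_le (1 / c) (by positivity)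
  have B8 := small_pow ((C₀ + 1) * (C₀ + 2)) (1025 / 1000) (1024 / 1000) (by norm_num)
  have B9 := small_pow' (C₀ + 2) c (25 / 1000) (24 / 1000) hc (by norm_num)
  have B10 := small_pow' 1 (c * c) 2 (1024 / 1000) (by positivity) (by norm_num)
  have B11 := small_pow ((C₀ + 1) * Cg + 1) (-(1 / 5)) (-(201 / 1000)) (by norm_num)
  have B12 := small_pow (C₀ + 1) (1 + 1 / 30) (1033 / 1000) (by norm_num)
  have B13 := small_pow' 1 c (1 / 30) (33 / 1000) hc (by norm_num)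
  have B14 := small_pow 1 2 (1024 / 1000) (by norm_num)
  have H := (((((((((((((B1.and B2).and B3).and B4).and B5).and B6).and B7).and B8).and B9).and
    B10).and B11).and B12).and B13).and B14).and (small_le 1 one_pos)
  refine H.mono fun s hs h => ?_
  obtain ⟨⟨⟨⟨⟨⟨⟨⟨⟨⟨⟨⟨⟨⟨B1, B2⟩, B3⟩, B4⟩, B5⟩, B6⟩, B7⟩, B8⟩, B9⟩, B10⟩, B11⟩, B12⟩, B13⟩,
    B14⟩, hs1⟩ := h
  intro n Dn μ k clu kn e₀ lam J mm MM hK D nQ nK nQ0 nQ1 nK0 nK1
  have rp : ∀ p : ℝ, 0 < s ^ p := fun p => Real.rpow_pos_of_pos hs p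
  have anti : ∀ {p q : ℝ}, q ≤ p → s ^ p ≤ s ^ q := fun h => rpow_anti hs hs1 h
  have ad : ∀ p q r : ℝ, p + q = r → s ^ p * s ^ q = s ^ r := fun p q r h => by
    rw [← Real.rpow_add hs, h]
  have s1 : s = s ^ (1 : ℝ) := (Real.rpow_one s).symm
  have hk : 0 < s * c := mul_pos hs hc
  have hlam0 : 0 < lam := lt_of_lt_of_le (by have := rp (-(3 / 4)); positivity) D.lam.1
  obtain ⟨hJ0, hJ⟩ := D.J
  obtain ⟨hm0, hm⟩ := D.mm
  obtain ⟨hh0, hh⟩ := D.hK
  -- the radius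
  set t : ℕ := ⌊s ^ (-(8 / 5) : ℝ)⌋₊ with ht
  have htu : (t : ℝ) ≤ s ^ (-(8 / 5) : ℝ) := Nat.floor_le (rp _).le
  have htl : s ^ (-(8 / 5) : ℝ) / 2 ≤ (t : ℝ) := by
    have h1 := Nat.lt_floor_add_one (s ^ (-(8 / 5) : ℝ))
    rw [← ht] at h1
    have h2 : 2 ≤ s ^ (-(8 / 5) : ℝ) := by
      rw [Real.rpow_neg hs.le, ← one_div, le_div_iff₀ (rp _)]
      linarith
    linarith
  -- the numbers of sites
  have hclu : (clu : ℝ) ≤ s ^ (-(1 / 1000) : ℝ) := D.clu.trans (anti (by linarith))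
  have hnS : ((clu + kn : ℕ) : ℝ) ≤ 2 * s ^ (-(6 / 5) : ℝ) := by
    push_cast
    have h1 := hclu.trans (anti (show (-(6 / 5) : ℝ) ≤ -(1 / 1000) by norm_num))
    have h2 := D.kn
    linarith
  have hnS0 : (0 : ℝ) ≤ ((clu + kn : ℕ) : ℝ) := Nat.cast_nonneg _
  -- `W₁`
  have hW : 2 * (s * c / (8 * d)) * Zc d n (fun j => 2 * Dn j) ≤
      c * Kz / (4 * d) * s ^ (-(1 / 4) : ℝ) := by
    have h1 := mul_le_mul_of_nonneg_left D.zc (show 0 ≤ 2 * (s * c / (8 * d)) by positivity)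
    refine h1.trans (le_of_eq ?_)
    rw [← ad 1 (-(5 / 4)) (-(1 / 4)) (by norm_num), ← s1]
    field_simp
    ring
  set W : ℝ := Real.exp (2 * (s * c / (8 * d)) * Zc d n fun j => 2 * Dn j) with hWd
  have hW0 : 0 < W := Real.exp_pos _
  have hWW : W ≤ Real.exp (c * Kz / (4 * d) * s ^ (-(1 / 4) : ℝ)) := Real.exp_le_exp.2 hW
  -- exponentials
  have hpk : (2 : ℝ) ^ (k + 2) = 4 * 2 ^ k := by ring
  have E1 : Real.exp (-(s * c / (8 * d) / 2 * 2 ^ k)) ≤
      Real.exp (-(c / (64 * d) * s ^ (-2 : ℝ))) := by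
    refine Real.exp_le_exp.2 (neg_le_neg ?_)
    have h1 := D.rho
    rw [hpk] at h1
    have h2 := mul_le_mul_of_nonneg_left h1 (show 0 ≤ s * c / (64 * d) by positivity)
    rw [← ad 1 (-3) (-2) (by norm_num), ← s1]
    calc c / (64 * d) * (s * s ^ (-3 : ℝ)) = s * c / (64 * d) * s ^ (-3 : ℝ) := by ring
      _ ≤ s * c / (64 * d) * (4 * 2 ^ k) := h2
      _ = _ := by
        field_simp
        norm_num
  have E2 : Real.exp (-(s * c / (8 * d) / 12 * t)) ≤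
      Real.exp (-(c / (192 * d) * s ^ (-(3 / 5) : ℝ))) := by
    refine Real.exp_le_exp.2 (neg_le_neg ?_)
    have h2 := mul_le_mul_of_nonneg_left htl (show 0 ≤ s * c / (96 * d) by positivity)
    rw [← ad 1 (-(8 / 5)) (-(3 / 5)) (by norm_num), ← s1]
    calc c / (192 * d) * (s * s ^ (-(8 / 5) : ℝ)) = s * c / (96 * d) * (s ^ (-(8 / 5) : ℝ) / 2) := by
          field_simp
          norm_num
      _ ≤ s * c / (96 * d) * t := h2
      _ = _ := by
        field_simp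
        ring
  have E3 : Real.exp (-(s * c / (8 * d) * t)) ≤ Real.exp (-(s * c / (8 * d) / 12 * t)) := by
    refine Real.exp_le_exp.2 (neg_le_neg ?_)
    have : 0 ≤ s * c / (8 * d) * t := by positivity
    linarith
  have T1 : ((clu + kn : ℕ) : ℝ) * (16 * W * Real.exp (-(s * c / (8 * d) / 2 * 2 ^ k))) ≤
      Real.exp (-(s ^ (-(1 / 2) : ℝ))) := by
    refine le_trans ?_ B1
    calc ((clu + kn : ℕ) : ℝ) * (16 * W * Real.exp (-(s * c / (8 * d) / 2 * 2 ^ k)))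
        ≤ (2 * s ^ (-(6 / 5) : ℝ)) * (16 * Real.exp (c * Kz / (4 * d) * s ^ (-(1 / 4) : ℝ)) *
            Real.exp (-(c / (64 * d) * s ^ (-2 : ℝ)))) := by gcongr
      _ = _ := by ring
  have T2 : 6 * (16 * W) * Real.exp (-(s * c / (8 * d) / 12 * t)) ≤
      Real.exp (-(s ^ (-(1 / 2) : ℝ))) := by
    refine le_trans ?_ B2
    rw [neg_zero, Real.rpow_zero, mul_one]
    calc 6 * (16 * W) * Real.exp (-(s * c / (8 * d) / 12 * t))
        ≤ 6 * (16 * Real.exp (c * Kz / (4 * d) * s ^ (-(1 / 4) : ℝ))) *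
            Real.exp (-(c / (192 * d) * s ^ (-(3 / 5) : ℝ))) := by gcongr
      _ = _ := by ring
  have T3 : ((clu + kn : ℕ) : ℝ) * (16 * W * Real.exp (-(s * c / (8 * d) * t))) ≤
      s ^ (2 : ℝ) := by
    have h1 : ((clu + kn : ℕ) : ℝ) * (16 * W * Real.exp (-(s * c / (8 * d) * t))) ≤
        Real.exp (-(s ^ (-(1 / 2) : ℝ))) := by
      refine le_trans ?_ B3
      have E4 := E3.trans E2
      calc ((clu + kn : ℕ) : ℝ) * (16 * W * Real.exp (-(s * c / (8 * d) * t)))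
          ≤ (2 * s ^ (-(6 / 5) : ℝ)) * (16 * Real.exp (c * Kz / (4 * d) * s ^ (-(1 / 4) : ℝ)) *
              Real.exp (-(c / (192 * d) * s ^ (-(3 / 5) : ℝ)))) := by gcongr
        _ = _ := by ring
    refine h1.trans ?_
    rw [neg_zero, Real.rpow_zero, mul_one, one_mul, one_mul] at B4
    exact B4
  -- the flux
  have F1 : nQ * hK + s * (C₀ + 1) * Real.sqrt (nK * (2 * lam)) ≤
      (C₀ + 2) * s ^ (25 / 1000 : ℝ) := by
    have h1 : nQ * hK ≤ s ^ (25 / 1000 : ℝ) := by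
      refine (mul_le_mul nQ1 hh hh0 (rp _).le).trans ?_
      rw [ad (-(1 / 1000)) (1 / 10) (99 / 1000) (by norm_num)]
      exact anti (by norm_num)
    have h2 : Real.sqrt (nK * (2 * lam)) ≤ s ^ (-(39 / 40) : ℝ) := by
      refine Real.sqrt_le_iff.2 ⟨(rp _).le, ?_⟩
      have h3 : (s ^ (-(39 / 40) : ℝ)) ^ 2 = s ^ (-(6 / 5) : ℝ) * s ^ (-(3 / 4) : ℝ) := by
        rw [sq, ← Real.rpow_add hs, ← Real.rpow_add hs]
        norm_num
      rw [h3]
      have h4 := D.lam.2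
      refine mul_le_mul nK1 ?_ (by positivity) (rp _).le
      linarith
    have h4 : s * (C₀ + 1) * Real.sqrt (nK * (2 * lam)) ≤ (C₀ + 1) * s ^ (25 / 1000 : ℝ) := by
      have h5 := mul_le_mul_of_nonneg_left h2 (show 0 ≤ s * (C₀ + 1) by positivity)
      refine h5.trans (le_of_eq ?_)
      rw [← ad 1 (-(39 / 40)) (25 / 1000) (by norm_num), ← s1]
      ring
    linarith
  exact {
    hd := by omega
    hM := D.hM
    hrk := le_rfl
    geo := by
      have h1 : (((clu + kn) * t + t + 1 : ℕ) : ℝ) ≤ ((2 ^ k : ℕ) : ℝ) := by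
        push_cast
        have h2 : ((clu : ℝ) + kn) * t ≤ 2 * s ^ (-(14 / 5) : ℝ) := by
          push_cast at hnS
          refine (mul_le_mul hnS htu (Nat.cast_nonneg _) (by have := rp (-(6 / 5)); positivity)).trans
            (le_of_eq ?_)
          rw [mul_assoc, ad (-(6 / 5)) (-(8 / 5)) (-(14 / 5)) (by norm_num)]
        have h3 : (t : ℝ) ≤ s ^ (-(14 / 5) : ℝ) := htu.trans (anti (by norm_num))
        have h4 : (1 : ℝ) ≤ s ^ (-(14 / 5) : ℝ) := by
          have := anti (show (-(14 / 5) : ℝ) ≤ 0 by norm_num)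
          rwa [Real.rpow_zero] at this
        have h5 := D.rho
        rw [hpk] at h5
        have h6 : s ^ (-3 : ℝ) = s ^ (-(3 : ℝ)) := rfl
        linarith
      exact_mod_cast h1
    hc := hc
    hlam := hlam0.le
    hCg := hCg
    nn := ⟨nQ0, nK0, hh0, hm0⟩
    hk₀ := by
      refine ⟨rfl, hk, ?_⟩
      rw [le_div_iff₀ hc] at B7
      exact B7
    hβ := rfl
    hκ := by
      have := D.he.2
      linarith
    hW₁ := le_rfl
    e1 := T1
    e2 := T2
    f1 := by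
      constructor
      · have h1 := mul_le_mul_of_nonneg_left F1 (show 0 ≤ s * (C₀ + 1) by positivity)
        refine h1.trans (le_trans (le_of_eq ?_) B8)
        rw [← ad 1 (25 / 1000) (1025 / 1000) (by norm_num), ← s1]
        ring
      · refine F1.trans (B9.trans (le_of_eq ?_))
        ring
    f2 := by
      constructor
      · refine T3.trans ?_
        rw [one_mul] at B14
        exact B14
      · refine T3.trans ?_
        rw [one_mul] at B10
        refine B10.trans (le_of_eq ?_)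
        rw [← ad (24 / 1000) 1 (1024 / 1000) (by norm_num), ← s1]
        ring
    f3 := by
      refine le_trans ?_ B11
      have h1 : s * (C₀ + 1) * Cg * nK ≤ (C₀ + 1) * Cg * s ^ (-(1 / 5) : ℝ) := by
        have h2 := mul_le_mul_of_nonneg_left nK1 (show 0 ≤ s * (C₀ + 1) * Cg by positivity)
        refine h2.trans (le_of_eq ?_)
        rw [← ad 1 (-(6 / 5)) (-(1 / 5)) (by norm_num), ← s1]
        ring
      have h3 := nQ1.trans (anti (show (-(1 / 5) : ℝ) ≤ -(1 / 1000) by norm_num))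
      linarith
    m2 := by
      constructor
      · have h1 := mul_le_mul_of_nonneg_left hm (show 0 ≤ s * (C₀ + 1) by positivity)
        refine h1.trans (le_trans (le_of_eq ?_) B12)
        rw [← ad 1 (1 / 30) (1 + 1 / 30) rfl, ← s1]
        ring
      · rw [one_mul] at B13
        refine hm.trans (B13.trans (le_of_eq ?_))
        ring
    m3 := D.MM }

end Pool.Agent.AHH.H41
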