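import Pool.Agent.Helper61_AND.Num

/-!
# A calculus of powers of a small parameter

`Up s p x`: `0 ≤ x ≤ s ^ p`. `Lo s p x`: `s ^ p ≤ x`.
-/

set_option autoImplicit false

open Filter Topology

namespace Pool.Agent.AHH.H41

open Pool.Agent.AND.Num

/-- `0 ≤ x ≤ s ^ p` -/
structure Up (s p x : ℝ) : Prop where
  nn : 0 ≤ x
  le : x ≤ s ^ p

/-- `s ^ p ≤ x` -/
def Lo (s p x : ℝ) : Prop := s ^ p ≤ x

section cal

variable {s p q x y e r : ℝ}

theorem Up.self (hs : 0 < s) (p : ℝ) : Up s p (s ^ p) := ⟨Real.rpow_nonneg hs.le _, le_rfl⟩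

theorem Lo.self (s p : ℝ) : Lo s p (s ^ p) := le_refl (s ^ p)

theorem Lo.pos (hs : 0 < s) (h : Lo s p x) : 0 < x := lt_of_lt_of_le (Real.rpow_pos_of_pos hs _) h

theorem Up.zero (hs : 0 < s) : Up s p 0 := ⟨le_rfl, Real.rpow_nonneg hs.le _⟩

theorem Up.one (s : ℝ) : Up s 0 1 := ⟨zero_le_one, by rw [Real.rpow_zero]⟩

theorem Up.of_le (h : Up s p y) (h0 : 0 ≤ x) (h1 : x ≤ y) : Up s p x := ⟨h0, h1.trans h.le⟩

theorem Lo.of_le (h : Lo s p x) (h1 : x ≤ y) : Lo s p y := h.trans h1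

theorem Up.mono (hs : 0 < s) (hs1 : s ≤ 1) (hpq : q ≤ p) (h : Up s p x) : Up s q x :=
  ⟨h.nn, h.le.trans (Real.rpow_le_rpow_of_exponent_ge hs hs1 hpq)⟩

theorem Lo.mono (hs : 0 < s) (hs1 : s ≤ 1) (hpq : p ≤ q) (h : Lo s p x) : Lo s q x :=
  (Real.rpow_le_rpow_of_exponent_ge hs hs1 hpq).trans h

theorem Up.mul (hs : 0 < s) (hx : Up s p x) (hy : Up s q y) : Up s (p + q) (x * y) :=
  ⟨mul_nonneg hx.nn hy.nn, by
    rw [Real.rpow_add hs]
    exact mul_le_mul hx.le hy.le hy.nn (Real.rpow_nonneg hs.le _)⟩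

theorem Lo.mul (hs : 0 < s) (hx : Lo s p x) (hy : Lo s q y) : Lo s (p + q) (x * y) := by
  unfold Lo
  rw [Real.rpow_add hs]
  exact mul_le_mul hx hy (Real.rpow_nonneg hs.le _) (hx.pos hs).le

theorem Up.div (hs : 0 < s) (hx : Up s p x) (hy : Lo s q y) : Up s (p - q) (x / y) :=
  ⟨div_nonneg hx.nn (hy.pos hs).le, by
    rw [Real.rpow_sub hs]
    exact div_le_div₀ (Real.rpow_nonneg hs.le _) hx.le (Real.rpow_pos_of_pos hs _) hy⟩

theorem Lo.div (hs : 0 < s) (hx : Lo s p x) (hy : Up s q y) (hy0 : 0 < y) :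
    Lo s (p - q) (x / y) := by
  unfold Lo
  rw [Real.rpow_sub hs]
  exact div_le_div₀ (hx.pos hs).le hx hy0 hy.le

theorem Up.inv (hs : 0 < s) (hy : Lo s q y) : Up s (-q) y⁻¹ := by
  have h := (Up.one s).div hs hy
  rw [one_div] at h
  rwa [zero_sub] at h

theorem Lo.inv (hs : 0 < s) (hy : Up s q y) (hy0 : 0 < y) : Lo s (-q) y⁻¹ := by
  have h : Lo s 0 1 := by
    unfold Lo
    rw [Real.rpow_zero]
  have h := h.div hs hy hy0
  rw [one_div] at h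
  rwa [zero_sub] at h

theorem Up.pow (hs : 0 < s) (hx : Up s p x) (k : ℕ) : Up s (p * k) (x ^ k) :=
  ⟨pow_nonneg hx.nn k, by
    rw [Real.rpow_mul hs.le, Real.rpow_natCast]
    exact pow_le_pow_left₀ hx.nn hx.le k⟩

theorem Lo.pow (hs : 0 < s) (hx : Lo s p x) (k : ℕ) : Lo s (p * k) (x ^ k) := by
  unfold Lo
  rw [Real.rpow_mul hs.le, Real.rpow_natCast]
  exact pow_le_pow_left₀ (Real.rpow_nonneg hs.le _) hx k

theorem Up.rpow (hs : 0 < s) (hx : Up s p x) (hr : 0 ≤ r) : Up s (p * r) (x ^ r) :=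
  ⟨Real.rpow_nonneg hx.nn _, by
    rw [Real.rpow_mul hs.le]
    exact Real.rpow_le_rpow hx.nn hx.le hr⟩

theorem Lo.rpow (hs : 0 < s) (hx : Lo s p x) (hr : 0 ≤ r) : Lo s (p * r) (x ^ r) := by
  unfold Lo
  rw [Real.rpow_mul hs.le]
  exact Real.rpow_le_rpow (Real.rpow_nonneg hs.le _) hx hr

theorem Up.sqrt (hs : 0 < s) (hx : Up s p x) : Up s (p * (1 / 2)) (Real.sqrt x) := by
  rw [Real.sqrt_eq_rpow]
  exact hx.rpow hs (by norm_num)

/-- the sum of two, `2 ≤ s ^ (-e)` -/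
theorem Up.add (hs : 0 < s) (he : 2 ≤ s ^ (-e)) (hx : Up s p x) (hy : Up s p y) :
    Up s (p - e) (x + y) :=
  ⟨add_nonneg hx.nn hy.nn, by
    have h1 : s ^ (p - e) = s ^ (-e) * s ^ p := by
      rw [← Real.rpow_add hs]
      congr 1
      ring
    have h2 := Real.rpow_nonneg hs.le p
    have h3 := hx.le
    have h4 := hy.le
    rw [h1]
    nlinarith⟩

/-- three -/
theorem Up.add3 {z : ℝ} (hs : 0 < s) (he : 3 ≤ s ^ (-e)) (hx : Up s p x) (hy : Up s p y)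
    (hz : Up s p z) : Up s (p - e) (x + y + z) :=
  ⟨add_nonneg (add_nonneg hx.nn hy.nn) hz.nn, by
    have h1 : s ^ (p - e) = s ^ (-e) * s ^ p := by
      rw [← Real.rpow_add hs]
      congr 1
      ring
    have h2 := Real.rpow_nonneg hs.le p
    have h3 := hx.le
    have h4 := hy.le
    have h5 := hz.le
    rw [h1]
    nlinarith⟩

theorem Up.sum {ι : Type*} (hs : 0 < s) (t : Finset ι) (f : ι → ℝ) (hf : ∀ i ∈ t, Up s p (f i))
    (ht : (t.card : ℝ) ≤ s ^ q) : Up s (q + p) (∑ i ∈ t, f i) :=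
  ⟨Finset.sum_nonneg fun i hi => (hf i hi).nn, by
    refine (Finset.sum_le_card_nsmul t f (s ^ p) fun i hi => (hf i hi).le).trans ?_
    rw [nsmul_eq_mul, Real.rpow_add hs]
    exact mul_le_mul_of_nonneg_right ht (Real.rpow_nonneg hs.le _)⟩

/-- a constant -/
theorem Up.const (hx : 0 ≤ x) (h : x ≤ s ^ (-e)) : Up s (-e) x := ⟨hx, h⟩

theorem Lo.const (hs : 0 < s) (hx : 0 < x) (h : 1 / x ≤ s ^ (-e)) : Lo s e x := by
  unfold Lo
  rw [Real.rpow_neg hs.le, div_le_iff₀ hx, inv_mul_eq_div, one_le_div (Real.rpow_pos_of_pos hs _)] at h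
  exact h

/-- the final step -/
theorem Up.fin (hs : 0 < s) (hs1 : s ≤ 1) (hpq : q ≤ p) (h : Up s p x) : x ≤ s ^ q :=
  (h.mono hs hs1 hpq).le

theorem Up.fin' (hs : 0 < s) (hs1 : s ≤ 1) (hpq : q ≤ p) (h : Up s p x) (h' : Lo s q y) : x ≤ y :=
  (h.fin hs hs1 hpq).trans h'

theorem Up.le_one (hs : 0 < s) (hs1 : s ≤ 1) (hp : 0 ≤ p) (h : Up s p x) : x ≤ 1 := by
  have := h.fin hs hs1 hp
  rwa [Real.rpow_zero] at this

/-- multiplied with a constant -/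
theorem Up.cmul (hs : 0 < s) {c : ℝ} (hc : 0 ≤ c) (hc' : c ≤ s ^ (-e)) (h : Up s p x) :
    Up s (p - e) (c * x) := by
  have := (Up.const hc hc').mul hs h
  rwa [neg_add_eq_sub] at this

end cal

/-! ### Small -/

/-- finitely many constants -/
theorem small_consts (e : ℝ) (he : 0 < e) (K : ℝ) : Small fun s => K ≤ s ^ (-e) := small_const K e he

/-- `exp (-x) ≤ s ^ R` for all `x ≥ c s ^ (-p)` -/
theorem small_exp_all (c p R : ℝ) (hc : 0 < c) (hp : 0 < p) :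
    Small fun s => ∀ x, c * s ^ (-p) ≤ x → Real.exp (-x) ≤ s ^ R := by
  refine (small_exp_pow 1 c p 0 R hc hp).mono fun s hs h x hx => ?_
  rw [neg_zero, Real.rpow_zero, mul_one, one_mul] at h
  exact (Real.exp_le_exp.2 (neg_le_neg hx)).trans h

end Pool.Agent.AHH.H41
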